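import Mathlib
import Pool.Agent.Y298.GA.Stm

/-!
# Project GA, statement S_PUSH: distortion of the iterates along a slow family
(adapted from Pool/Agent/Y261/CA/Push.lean)
-/

set_option autoImplicit false

open Set Filter Metric MeasureTheory

namespace Pool.Agent.Y195.GA

open Pool.Agent.TH279.MD Pool.Agent.Y298.SH Pool.Agent.Y298.SH.CD Pool.Agent.Y298.GA

theorem push : S_PUSH := by
  intro d c₁ r κ h w ρ m n a b e hd hρ H hmn hdiff hbase ha hb he h4 hA hB hE hsum
  have hdR : (2 : ℝ) ≤ d := by exact_mod_cast hd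
  have hww : w ∈ ball w ρ := mem_ball_self hρ
  have hpart : ∀ j, j ≤ n → ∑ i ∈ Finset.Ico m j, (4 * d * a i + b i + 4 * e i) ≤ 1 / 8 :=
    fun j hj => (Finset.sum_le_sum_of_subset_of_nonneg (Finset.Ico_subset_Ico_right hj)
      fun i _ _ => by
        have := ha i
        have := hb i
        have := he i
        positivity).trans hsum
  have h8 : ∀ j < n, GG d h j w ∈ ball (0 : ℂ) 8 := by
    intro j hj
    rw [mem_ball_zero_iff]
    linarith [h4 j hj]
  have key : ∀ j, m ≤ j → j ≤ n → DifferentiableOn ℂ (GG d h j) (ball w ρ) ∧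
      ∀ w' ∈ ball w ρ, ‖deriv (GG d h j) w' - DD d h j w‖ ≤
      (1 / 16 + ∑ i ∈ Finset.Ico m j, (4 * d * a i + b i + 4 * e i)) * ‖DD d h j w‖ := by
    intro j hmj
    induction j, hmj using Nat.le_induction with
    | base =>
      intro _
      refine ⟨hdiff, fun w' hw' => ?_⟩
      simpa using hbase w' hw'
    | succ j hmj ih =>
      intro hjn
      obtain ⟨hdj, ih'⟩ := ih (by omega)
      have hp := hpart (j + 1) hjn
      rw [Finset.sum_Ico_succ_top hmj] at hp ⊢
      set η := ∑ i ∈ Finset.Ico m j, (4 * d * a i + b i + 4 * e i) with hη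
      have hη0 : 0 ≤ η := Finset.sum_nonneg fun i _ => by
        have := ha i
        have := hb i
        have := he i
        positivity
      have haj := ha j
      have hbj := hb j
      have hej := he j
      have hda0 : 0 ≤ 4 * d * a j := by positivity
      have hda : 4 * d * a j ≤ 1 / 8 := by linarith
      have hej1 : e j ≤ 1 / 32 := by linarith
      have haj1 : a j ≤ 1 / 64 := by nlinarith
      have hη1 : 1 / 16 + η ≤ 1 / 4 := by linarith
      set Dj := DD d h j w with hDj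
      set x := GG d h j w with hx
      have hat : ∀ z ∈ ball w ρ, DifferentiableAt ℂ (GG d h j) z := fun z hz =>
        hdj.differentiableAt (isOpen_ball.mem_nhds hz)
      have hG' : ∀ z ∈ ball w ρ, ‖deriv (GG d h j) z‖ ≤ 5 / 4 * ‖Dj‖ := by
        intro z hz
        calc ‖deriv (GG d h j) z‖ = ‖(deriv (GG d h j) z - Dj) + Dj‖ := by congr 1; ring
          _ ≤ ‖deriv (GG d h j) z - Dj‖ + ‖Dj‖ := norm_add_le _ _
          _ ≤ 1 / 4 * ‖Dj‖ + ‖Dj‖ := by
            have h1 := ih' z hz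
            have h2 : (1 / 16 + η) * ‖Dj‖ ≤ 1 / 4 * ‖Dj‖ := by gcongr
            linarith
          _ = 5 / 4 * ‖Dj‖ := by ring
      have hx4 : ‖x‖ ≤ 4 := h4 j (by omega)
      have hmv : ∀ w' ∈ ball w ρ, ‖GG d h j w' - x‖ ≤ (5 / 4 * a j) * ‖x‖ := by
        intro w' hw'
        have h1 := (convex_ball w ρ).norm_image_sub_le_of_norm_deriv_le (𝕜 := ℂ) (f := GG d h j)
          hat hG' hww hw'
        have h2 : ‖w' - w‖ ≤ ρ := by
          rw [← dist_eq_norm]
          exact (mem_ball.1 hw').le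
        have h3 := hA j hmj (by omega)
        calc ‖GG d h j w' - x‖ ≤ 5 / 4 * ‖Dj‖ * ‖w' - w‖ := h1
          _ ≤ 5 / 4 * ‖Dj‖ * ρ := by gcongr
          _ = 5 / 4 * (‖Dj‖ * ρ) := by ring
          _ ≤ 5 / 4 * (a j * ‖x‖) := by gcongr
          _ = _ := by ring
      set q := 5 / 4 * a j with hq
      have hq0 : 0 ≤ q := by positivity
      have hq1 : q ≤ 1 / 4 := by linarith
      have hum : ∀ w' ∈ ball w ρ, ‖GG d h j w'‖ ≤ ‖x‖ * (1 + q) := by
        intro w' hw'
        calc ‖GG d h j w'‖ = ‖(GG d h j w' - x) + x‖ := by congr 1; ring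
          _ ≤ ‖GG d h j w' - x‖ + ‖x‖ := norm_add_le _ _
          _ ≤ _ := by linarith [hmv w' hw']
      have hx8 : ∀ w' ∈ ball w ρ, GG d h j w' ∈ ball (0 : ℂ) 8 := by
        intro w' hw'
        rw [mem_ball_zero_iff]
        have h1 := hum w' hw'
        have h2 : ‖x‖ * (1 + q) ≤ 4 * (1 + 1 / 4) := by gcongr
        linarith
      have hder : ∀ w' ∈ ball w ρ, HasDerivAt (GG d h (j + 1))
          ((d * GG d h j w' ^ (d - 1) + deriv (h w') (GG d h j w')) * deriv (GG d h j) w' +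
            deriv (fun w'' => h w'' (GG d h j w')) w') w' := fun w' hw' =>
        H.hasDeriv d hw' (hat w' hw') (hx8 w' hw')
      refine ⟨fun w' hw' => (hder w' hw').differentiableAt.differentiableWithinAt, ?_⟩
      intro w' hw'
      have hxm : ‖x‖ ≤ ‖x‖ * (1 + q) := by nlinarith [norm_nonneg x]
      have h1 := pow_sub_le (GG d h j w') x (hum w' hw') hxm (d - 1)
      have hd1 : ((d - 1 : ℕ) : ℝ) = d - 1 := by
        rw [Nat.cast_sub (by omega)]
        simp
      have h2 : (1 + q) ^ (d - 1 - 1) ≤ 3 / 2 := by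
        have h3 : ((d - 1 - 1 : ℕ) : ℝ) * q ≤ 1 / 4 := by
          have h4 : ((d - 1 - 1 : ℕ) : ℝ) ≤ d := by exact_mod_cast (by omega : d - 1 - 1 ≤ d)
          calc ((d - 1 - 1 : ℕ) : ℝ) * q ≤ d * q := by gcongr
            _ = 5 / 16 * (4 * d * a j) := by rw [hq]; ring
            _ ≤ 1 / 4 := by linarith
        have h5 := pow_up hq0 (n := d - 1 - 1) (by linarith)
        linarith
      set X := ‖x‖ ^ (d - 1) with hX
      have hX0 : 0 ≤ X := by positivity
      have h4' : ‖x‖ ^ (d - 1 - 1) * ‖x‖ = X := by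
        rw [hX, ← pow_succ]
        congr 1
        omega
      have hd0 : (0 : ℝ) ≤ d - 1 := by linarith
      have h5 : ‖GG d h j w' ^ (d - 1) - x ^ (d - 1)‖ ≤ (d - 1) * (15 / 8 * a j) * X := by
        refine h1.trans ?_
        rw [hd1]
        calc ((d : ℝ) - 1) * (‖x‖ * (1 + q)) ^ (d - 1 - 1) * ‖GG d h j w' - x‖
            ≤ (d - 1) * (‖x‖ ^ (d - 1 - 1) * (3 / 2)) * (q * ‖x‖) := by
              rw [mul_pow]
              gcongr
              exact hmv w' hw'
          _ = (d - 1) * (3 / 2 * q) * (‖x‖ ^ (d - 1 - 1) * ‖x‖) := by ring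
          _ = _ := by rw [h4', hq]; ring
      rw [(hder w' hw').deriv]
      have hDs := H.DD_succ d hww (n := j) fun i hi => h8 i (by omega)
      set p := deriv (h w) x with hp'
      set p' := deriv (h w') (GG d h j w') with hp''
      set q₀ := deriv (fun w'' => h w'' (GG d h j w')) w' with hq₀
      have hre := hE j hmj (by omega)
      have hpn : ‖p‖ ≤ e j * X := (H.vert w hww x (h8 j (by omega))).trans hre
      have hpn' : ‖p'‖ ≤ e j * X := (H.vert w' hw' _ (hx8 w' hw')).trans hre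
      have hEn : ‖DD d h (j + 1) w‖ = ‖(d : ℂ) * x ^ (d - 1) + p‖ * ‖Dj‖ := by
        rw [hDs, norm_mul]
      have hAn : ‖(d : ℂ) * x ^ (d - 1)‖ = d * X := by
        rw [norm_mul, norm_pow, Complex.norm_natCast]
      have hlow : 63 / 64 * (d * X) ≤ ‖(d : ℂ) * x ^ (d - 1) + p‖ := by
        have h6 : ‖(d : ℂ) * x ^ (d - 1)‖ ≤ ‖(d : ℂ) * x ^ (d - 1) + p‖ + ‖p‖ := by
          calc ‖(d : ℂ) * x ^ (d - 1)‖ = ‖((d : ℂ) * x ^ (d - 1) + p) - p‖ := by congr 1; ring
            _ ≤ _ := norm_sub_le _ _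
        rw [hAn] at h6
        have h7 : e j * X ≤ 1 / 64 * (d * X) := by
          have : e j ≤ 1 / 64 * d := by linarith
          calc e j * X ≤ (1 / 64 * d) * X := by gcongr
            _ = _ := by ring
        linarith
      have hlow' : 63 / 64 * (d * X * ‖Dj‖) ≤ ‖DD d h (j + 1) w‖ := by
        rw [hEn]
        calc 63 / 64 * (d * X * ‖Dj‖) = (63 / 64 * (d * X)) * ‖Dj‖ := by ring
          _ ≤ _ := by gcongr
      have hqn : ‖q₀‖ ≤ b j * ‖DD d h (j + 1) w‖ :=
        (H.slow w' hw' _ (hx8 w' hw')).trans (hB j hmj (by omega))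
      have e1 : ((d : ℂ) * GG d h j w' ^ (d - 1) + p') * deriv (GG d h j) w' + q₀ -
          DD d h (j + 1) w =
          d * (GG d h j w' ^ (d - 1) - x ^ (d - 1)) * deriv (GG d h j) w' +
          (p' - p) * deriv (GG d h j) w' +
          ((d : ℂ) * x ^ (d - 1) + p) * (deriv (GG d h j) w' - Dj) + q₀ := by
        rw [hDs]; ring
      rw [e1]
      have t1 : ‖(d : ℂ) * (GG d h j w' ^ (d - 1) - x ^ (d - 1)) * deriv (GG d h j) w'‖ ≤
          d * ((d - 1) * (15 / 8 * a j) * X) * (5 / 4 * ‖Dj‖) := by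
        rw [norm_mul, norm_mul, Complex.norm_natCast]
        gcongr
        exact hG' w' hw'
      have t2 : ‖(p' - p) * deriv (GG d h j) w'‖ ≤ (2 * (e j * X)) * (5 / 4 * ‖Dj‖) := by
        rw [norm_mul]
        gcongr
        · calc ‖p' - p‖ ≤ ‖p'‖ + ‖p‖ := norm_sub_le _ _
            _ ≤ _ := by linarith
        · exact hG' w' hw'
      have t3 : ‖((d : ℂ) * x ^ (d - 1) + p) * (deriv (GG d h j) w' - Dj)‖ ≤
          (1 / 16 + η) * ‖DD d h (j + 1) w‖ := by
        rw [norm_mul, hEn]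
        calc ‖(d : ℂ) * x ^ (d - 1) + p‖ * ‖deriv (GG d h j) w' - Dj‖ ≤
              ‖(d : ℂ) * x ^ (d - 1) + p‖ * ((1 / 16 + η) * ‖Dj‖) := by
              gcongr
              exact ih' w' hw'
          _ = _ := by ring
      have hPn : 0 ≤ d * X * ‖Dj‖ := by positivity
      have u1 : d * ((d - 1) * (15 / 8 * a j) * X) * (5 / 4 * ‖Dj‖) ≤
          4 * d * a j * ‖DD d h (j + 1) w‖ := by
        calc d * ((d - 1) * (15 / 8 * a j) * X) * (5 / 4 * ‖Dj‖) =
              (75 / 32 * (d - 1) * a j) * (d * X * ‖Dj‖) := by ring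
          _ ≤ (4 * d * a j * (63 / 64)) * (d * X * ‖Dj‖) := by
              refine mul_le_mul_of_nonneg_right ?_ hPn
              have : 75 / 32 * ((d : ℝ) - 1) ≤ 4 * d * (63 / 64) := by linarith
              calc 75 / 32 * ((d : ℝ) - 1) * a j ≤ (4 * d * (63 / 64)) * a j := by gcongr
                _ = _ := by ring
          _ = 4 * d * a j * (63 / 64 * (d * X * ‖Dj‖)) := by ring
          _ ≤ _ := by gcongr
      have u2 : (2 * (e j * X)) * (5 / 4 * ‖Dj‖) ≤ 4 * e j * ‖DD d h (j + 1) w‖ := by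
        calc (2 * (e j * X)) * (5 / 4 * ‖Dj‖) = 5 / 2 * e j * (X * ‖Dj‖) := by ring
          _ ≤ 5 / 2 * e j * (1 / 2 * (d * X * ‖Dj‖)) := by
              have : X * ‖Dj‖ ≤ 1 / 2 * (d * X * ‖Dj‖) := by
                have h0 : 0 ≤ X * ‖Dj‖ := by positivity
                calc X * ‖Dj‖ = 1 / 2 * (2 * (X * ‖Dj‖)) := by ring
                  _ ≤ 1 / 2 * (d * (X * ‖Dj‖)) := by gcongr
                  _ = _ := by ring
              gcongr
          _ = (80 / 63) * e j * (63 / 64 * (d * X * ‖Dj‖)) := by ring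
          _ ≤ 4 * e j * ‖DD d h (j + 1) w‖ := by
              gcongr
              norm_num
      calc _ ≤ ‖(d : ℂ) * (GG d h j w' ^ (d - 1) - x ^ (d - 1)) * deriv (GG d h j) w'‖ +
            ‖(p' - p) * deriv (GG d h j) w'‖ +
            ‖((d : ℂ) * x ^ (d - 1) + p) * (deriv (GG d h j) w' - Dj)‖ + ‖q₀‖ :=
              norm_add₄_le
        _ ≤ 4 * d * a j * ‖DD d h (j + 1) w‖ + 4 * e j * ‖DD d h (j + 1) w‖ +
            (1 / 16 + η) * ‖DD d h (j + 1) w‖ + b j * ‖DD d h (j + 1) w‖ :=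
              add_le_add (add_le_add (add_le_add (t1.trans u1) (t2.trans u2)) t3) hqn
        _ = _ := by ring
  obtain ⟨k1, k2⟩ := key n hmn le_rfl
  refine ⟨k1, fun w' hw' => (k2 w' hw').trans ?_⟩
  refine mul_le_mul_of_nonneg_right ?_ (norm_nonneg _)
  linarith

end Pool.Agent.Y195.GA
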